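import Pool.Agent.J6H30.Gal2.Vert

set_option autoImplicit false
set_option linter.unusedSectionVars false
set_option linter.unusedVariables false

/-! # The lower bound for the number of edges -/

namespace Pool.Agent.J6H30.Gal2

open Pool.Agent.W497.FS Pool.Agent.TH417.Gal

variable {α : Type} [DecidableEq α]

/-- a prime complex of rank at least two is not a suspension -/
theorem prm_nosus {H : SimpleGraph α} {d : ℕ} {W : Finset α} (h : NP H (d + 2) W) (hp : Prm H W) :
    ∀ q ∈ W, (nn H W q).card ≠ 1 := by
  intro q hq h1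
  have := Prm.two_le_nn h hp hq
  omega

/-- **the number of edges of a flag normal pseudomanifold**:
`3 f₁ ≥ (4 d - 6) f₀ - 2 d (d - 3)` -/
theorem edges (n : ℕ) : ∀ (d : ℕ) (H : SimpleGraph α) (W : Finset α), W.card = n → NP H d W →
    (8 * (d : ℤ) - 12) * W.card ≤ 3 * dg H W + 4 * d * (d - 3) := by
  induction n using Nat.strong_induction_on with
  | _ n ih =>
    intro d H W hn hW
    subst hn
    have h2d := hW.two_mul_le
    rcases d with _ | _ | D
    · have h0 : W = ∅ := hW
      subst h0
      simp [dg]
    · have h1 : W.card = 2 := hW.1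
      have h2 : (0 : ℤ) ≤ dg H W := by positivity
      rw [h1]
      push_cast
      omega
    · by_cases hsd : ∃ v x x', SD H W v x x'
      · obtain ⟨v, x, x', h⟩ := hsd
        have h1 := h.np hW
        have h2 := h.dg_eq hW
        have h3 : (W.erase v).card + 1 = W.card := Finset.card_erase_add_one h.hv
        have h4 := ih (W.erase v).card (by omega) _ _ _ rfl h1
        have h5 := (hW.lk h.hv).two_mul_le
        have h6 : (W.card : ℤ) = (W.erase v).card + 1 := by exact_mod_cast h3.symm
        have h7 : (dg H W : ℤ) = dg (addE H x x') (W.erase v) + 2 * (lk H W v).card - 2 := by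
          have : ((dg H W + 2 : ℕ) : ℤ) =
            ((dg (addE H x x') (W.erase v) + 2 * (lk H W v).card : ℕ) : ℤ) := by rw [h2]
          push_cast at this
          linarith
        have h8 : (2 * ((D : ℤ) + 1)) ≤ (lk H W v).card := by exact_mod_cast h5
        rw [h7, h6]
        push_cast at h4 ⊢
        nlinarith
      by_cases hp : Prm H W
      swap
      · obtain ⟨A, B, hA, hB, hAB, rfl⟩ := split_of_not_prm hW.nonempty hp
        obtain ⟨d₁, d₂, hd, h1, h2⟩ := hW.split hAB
        have hc := Finset.card_union_of_disjoint hAB.disjoint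
        have hA' := Finset.card_pos.2 hA
        have hB' := Finset.card_pos.2 hB
        have h3 := ih A.card (by omega) d₁ H A rfl h1
        have h4 := ih B.card (by omega) d₂ H B rfl h2
        have h5 := dg_join hAB
        have h6 : (2 * (d₁ : ℤ)) ≤ A.card := by exact_mod_cast h1.two_mul_le
        have h7 : (2 * (d₂ : ℤ)) ≤ B.card := by exact_mod_cast h2.two_mul_le
        have h8 : ((D : ℤ) + 2) = d₁ + d₂ := by exact_mod_cast hd.symm
        have h9 : ((D + 1 + 1 : ℕ) : ℤ) = d₁ + d₂ := by push_cast; linarith
        rw [h9, hc, h5]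
        push_cast
        have h10 : (0 : ℤ) ≤ (A.card - 2 * d₁) * (B.card - 2 * d₂) :=
          mul_nonneg (by linarith) (by linarith)
        have h11 : (0 : ℤ) ≤ d₁ * (B.card - 2 * d₂) := mul_nonneg (by positivity) (by linarith)
        have h12 : (0 : ℤ) ≤ d₂ * (A.card - 2 * d₁) := mul_nonneg (by positivity) (by linarith)
        nlinarith
      · push Not at hsd
        rcases D with _ | D
        · -- polygons
          have h1 : dg H W = 2 * W.card := by
            rw [dg, Finset.sum_congr rfl (NP2_card hW), Finset.sum_const, smul_eq_mul]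
            ring
          rw [h1]
          have h2 : (4 : ℤ) ≤ W.card := by exact_mod_cast h2d
          push_cast
          linarith
        have hr : Red H W := ⟨hsd, prm_nosus hW hp⟩
        have h1 : ∑ x ∈ W, (10 * (inn H W x).card + 5 * (pin H W x).card + 80 * (D + 1 + 1)) ≤
            ∑ x ∈ W, (30 * (lk H W x).card + 10 * (sus H (lk H W x)).card +
              5 * (pen H W x).card + 40) :=
          Finset.sum_le_sum (fun x hx => vertex hr hp hW hx)
        have h4 : ∑ x ∈ W, 30 * (lk H W x).card = 30 * dg H W := by rw [dg, Finset.mul_sum]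
        rw [Finset.sum_add_distrib, Finset.sum_add_distrib, Finset.sum_add_distrib,
          Finset.sum_add_distrib, Finset.sum_add_distrib, h4, Finset.sum_const, Finset.sum_const,
          ← Finset.mul_sum, ← Finset.mul_sum, ← Finset.mul_sum, ← Finset.mul_sum, sum_inn_eq,
          sum_pin_eq, smul_eq_mul, smul_eq_mul] at h1
        have h2 : W.card * (80 * (D + 1 + 1)) ≤ 30 * dg H W + W.card * 40 := by
          linarith
        have h3 : (W.card : ℤ) * (80 * (D + 1 + 1)) ≤ 30 * dg H W + W.card * 40 := by
          exact_mod_cast h2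
        push_cast
        nlinarith [Nat.zero_le D]

variable {H : SimpleGraph α}

/-- the number of edges of a flag normal pseudomanifold -/
theorem edges' {d : ℕ} {W : Finset α} (h : NP H d W) :
    (4 * (d : ℤ) - 6) * W.card - 2 * d * (d - 3) ≤
      3 * ((cl H W).filter (fun σ => σ.card = 2)).card := by
  have h1 := edges _ d H W rfl h
  rw [dg_eq_two_mul] at h1
  linarith

variable {k : Type} [Field k] {n d : ℕ} {S : Finset (Finset (Fin n))}

/-- the number of edges of a flag homology sphere -/
theorem sphere_edges (h : IsFlagSphere k d S) :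
    (4 * (d : ℤ) - 6) * numVert S - 2 * d * (d - 3) ≤
      3 * (S.filter (fun G => G.card = 2)).card := by
  have h1 := edges' h.np
  rw [h.cl_eq] at h1
  rw [numVert_eq]
  exact h1

/-- **a lower bound for `γ₂`** -/
theorem gamma_bound (h : IsFlagSphere k d S) (hd : 4 ≤ d) {γ : ℕ → ℤ} (hγ : IsGamma d S γ) :
    0 ≤ 3 * γ 2 + (2 * d - 3) * γ 1 := by
  obtain ⟨h1, h2⟩ := gamma_two h hd hγ
  have h3 := edges _ d (skel S) (vert S) rfl h.np
  have h4 : 2 * (3 * γ 2 + (2 * d - 3) * γ 1) =
    3 * (2 * γ 2) + 2 * (2 * d - 3) * γ 1 := by ring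
  have h5 : 0 ≤ 2 * (3 * γ 2 + (2 * d - 3) * γ 1) := by
    rw [h4, h2, h1]
    linarith
  linarith

end Pool.Agent.J6H30.Gal2
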