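import Pool.Agent.TH417.Gal.F

set_option autoImplicit false
set_option linter.unusedSectionVars false
set_option linter.unusedVariables false

/-! # Links with marked vertices in the pentagon factors, vertex cuts, degree sums of joins -/

namespace Pool.Agent.J6H30.Gal2

open Pool.Agent.W497.FS Pool.Agent.TH417.Gal

variable {α : Type} [DecidableEq α] {H : SimpleGraph α}

/-- degree sum of a join -/
theorem dg_join {A B : Finset α} (hAB : Full H A B) :
    dg H (A ∪ B) = dg H A + dg H B + 2 * (A.card * B.card) := by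
  rw [dg, Finset.sum_union hAB.disjoint]
  have h1 : ∀ a ∈ A, (lk H (A ∪ B) a).card = (lk H A a).card + B.card := by
    intro a ha
    rw [hAB.lk_left ha, Finset.card_union_of_disjoint
      (Finset.disjoint_of_subset_left lk_subset hAB.disjoint)]
  have h2 : ∀ b ∈ B, (lk H (A ∪ B) b).card = A.card + (lk H B b).card := by
    intro b hb
    rw [hAB.lk_right hb, Finset.card_union_of_disjoint
      (Finset.disjoint_of_subset_right lk_subset hAB.disjoint)]
  rw [Finset.sum_congr rfl h1, Finset.sum_congr rfl h2, Finset.sum_add_distrib,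
    Finset.sum_add_distrib, Finset.sum_const, Finset.sum_const, dg, dg, smul_eq_mul, smul_eq_mul]
  ring

/-- every pentagon factor of `L` contains at least two vertices of `P` -/
def Mk (H : SimpleGraph α) (L P : Finset α) : Prop :=
  ∀ C ∈ comps H L, NP H 2 C → C.card = 5 → 2 ≤ (P ∩ C).card

theorem Mk.left {A B P : Finset α} (hAB : Full H A B) (h : Mk H (A ∪ B) P) : Mk H A P :=
  fun C hC => h C (by rw [comps_union hAB]; exact Finset.mem_union_left _ hC)

theorem Mk.right {A B P : Finset α} (hAB : Full H A B) (h : Mk H (A ∪ B) P) : Mk H B P :=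
  fun C hC => h C (by rw [comps_union hAB]; exact Finset.mem_union_right _ hC)

theorem card_inter_union {A B P : Finset α} (hAB : Full H A B) :
    (P ∩ (A ∪ B)).card = (P ∩ A).card + (P ∩ B).card := by
  rw [Finset.inter_union_distrib_left, Finset.card_union_of_disjoint]
  exact Finset.disjoint_of_subset_left Finset.inter_subset_right
    (Finset.disjoint_of_subset_right Finset.inter_subset_right hAB.disjoint)

theorem NP2_card {C : Finset α} (h : NP H 2 C) : ∀ v ∈ C, (lk H C v).card = 2 :=
  fun v hv => (h.lk hv).1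

theorem link_bound {D : ℕ} {L P : Finset α} (h : NP H D L) (hP : Mk H L P) :
    80 * D ≤ 30 * L.card + 10 * (sus H L).card + 5 * (P ∩ L).card := by
  revert hP
  refine join_induction (H := H) (P := fun D L => Mk H L P →
    80 * D ≤ 30 * L.card + 10 * (sus H L).card + 5 * (P ∩ L).card) ?_ ?_ ?_ h
  · intro _; omega
  · intro d W hW hp _ hM
    rcases d with _ | d
    · have h2 : W.card = 2 := hW.1
      have h3 : sus H W = W := by
        ext u
        rw [mem_sus]
        refine ⟨fun h => h.1, fun hu => ⟨hu, ?_⟩⟩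
        have h4 := card_eq_lk_nn (H := H) hu
        have h5 : lk H W u = ∅ := hW.lk hu
        rw [h5, Finset.card_empty] at h4
        omega
      rw [h3]
      omega
    · have h3 := Prm.three_mul_le hW hp
      rcases d with _ | d
      · by_cases h5 : W.card = 5
        · have := hM W (by rw [comps_prm hp]; exact Finset.mem_singleton_self W) hW h5
          omega
        · omega
      · omega
  · intro d₁ d₂ A B hA hB _ hAB h1 h2 hM
    have h3 := card_sus_union hAB
    have h4 := Finset.card_union_of_disjoint hAB.disjoint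
    have h5 := card_inter_union (P := P) hAB
    have h6 := h1 (hM.left hAB)
    have h7 := h2 (hM.right hAB)
    omega

/-- **the inequality for a set with a non-dominating closed part** -/
theorem cut {r : ℕ} {L P U K : Finset α} (h : NP H r L) (hP : Mk H L P) (hU : U ⊆ L)
    (hK : K ⊆ U) (hne : K.Nonempty) (hcl : ∀ u ∈ K, ∀ w ∈ U, H.Adj w u → w ∈ K) {z : α}
    (hz : z ∈ L) (hzK : z ∉ K) (hzn : ∀ u ∈ K, ¬ H.Adj z u) :
    10 * U.card + 80 * r ≤
      30 * L.card + 10 * (sus H L).card + 5 * (P ∩ L).card + 40 := by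
  obtain ⟨C, hC, hzC⟩ := exists_comp (H := H) hz
  obtain ⟨hCL, hCp, hCadj⟩ := mem_comps.1 hC
  have hKC : K ⊆ C := by
    intro u hu
    by_contra huC
    exact hzn u hu (hCadj z hzC u (hU (hK hu)) huC)
  have hUC : U ⊆ C := by
    intro w hw
    by_contra hwC
    obtain ⟨u, hu⟩ := hne
    have := hCadj u (hKC hu) w (hU hw) hwC
    exact hwC (hKC (hcl u hu w hw this.symm))
  have hf : Full H C (L \ C) := fun a ha b hb =>
    hCadj a ha b (Finset.mem_sdiff.1 hb).1 (Finset.mem_sdiff.1 hb).2
  have hCB : C ∪ (L \ C) = L := Finset.union_sdiff_of_subset hCL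
  set B := L \ C with hB
  have hL' : NP H r (C ∪ B) := by rw [hCB]; exact h
  have hP' : Mk H (C ∪ B) P := by rw [hCB]; exact hP
  obtain ⟨e, e', hee, hNC, hNB⟩ := hL'.split hf
  obtain ⟨e1, rfl⟩ := hNC.rank_pos hzC
  have hB1 := link_bound hNB (hP'.right hf)
  have hS : (sus H B).card ≤ (sus H L).card := by
    have := card_sus_union hf
    rw [hCB] at this
    omega
  have hcard : L.card = C.card + B.card := by
    rw [← hCB, Finset.card_union_of_disjoint hf.disjoint]
  have hPc : (P ∩ L).card = (P ∩ C).card + (P ∩ B).card := by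
    have := card_inter_union (P := P) hf
    rwa [hCB] at this
  rcases e1 with _ | e0
  · have hc2 : C.card = 2 := hNC.1
    have h1 := Finset.card_le_card hUC
    omega
  · have hcut : 2 * (e0 + 1) ≤ (bdy H C K).card :=
      two_mul_le_bdy (e0 + 1) hNC hKC hne ⟨z, hzC, hzK, hzn⟩
    have hdisj : Disjoint U (bdy H C K) := by
      rw [Finset.disjoint_left]
      intro w hw hwb
      obtain ⟨hwC, hwU, u, hu, hwu⟩ := mem_bdy.1 hwb
      exact hwU (hcl u hu w hw hwu)
    have hcount : U.card + (bdy H C K).card ≤ C.card := by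
      rw [← Finset.card_union_of_disjoint hdisj]
      exact Finset.card_le_card (Finset.union_subset hUC (fun w hw => (mem_bdy.1 hw).1))
    have hprm : 3 * (e0 + 2) ≤ C.card + 1 := Prm.three_mul_le hNC hCp
    omega

/-- the exceptional case -/
theorem exc {r : ℕ} {Y M P U : Finset α} (hf : Full H Y M) (h : NP H r (Y ∪ M))
    (hY : NP H 2 Y) (hP : Mk H (Y ∪ M) P) (hU : U ⊆ Y) :
    5 * U.card + 80 * r ≤
      30 * (Y ∪ M).card + 10 * (sus H (Y ∪ M)).card + 5 * (P ∩ (Y ∪ M)).card + 40 := by
  obtain ⟨e, e', hee, hNC, hNB⟩ := h.split hf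
  have he := hNC.rank_unique hY
  have hB1 := link_bound hNB (hP.right hf)
  have hB0 := link_bound h hP
  have h1 := Finset.card_le_card hU
  have h2 := card_sus_union hf
  have h3 := card_inter_union (P := P) hf
  have h4 := Finset.card_union_of_disjoint hf.disjoint
  by_cases h5 : Y.card ≤ 4
  · omega
  · omega

end Pool.Agent.J6H30.Gal2
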