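import Pool.Agent.J6H30.Gal2.Link

set_option autoImplicit false
set_option linter.unusedSectionVars false
set_option linter.unusedVariables false

/-! # Pentagon factors of the links -/

namespace Pool.Agent.J6H30.Gal2

open Pool.Agent.W497.FS Pool.Agent.TH417.Gal

variable {α : Type} [DecidableEq α] {H : SimpleGraph α}

/-- a prime set meeting a join factor lies in it -/
theorem prm_subset {L C C' : Finset α} (hC : Prm H C) (hCL : C ⊆ L) (hC' : C' ∈ comps H L)
    {x : α} (hx : x ∈ C) (hx' : x ∈ C') : C ⊆ C' := by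
  by_contra hcon
  obtain ⟨k1, k2, k3⟩ := mem_comps.1 hC'
  obtain ⟨a, ha, b, hb, hbn, hab⟩ := hC.2 (C ∩ C') Finset.inter_subset_left
    ⟨x, Finset.mem_inter.2 ⟨hx, hx'⟩⟩ (fun h => hcon (fun z hz => by
      rw [← h] at hz
      exact (Finset.mem_inter.1 hz).2))
  have hbD : b ∉ C' := fun h => hbn (Finset.mem_inter.2 ⟨hb, h⟩)
  exact hab (k3 a (Finset.mem_inter.1 ha).2 b (hCL hb) hbD)

/-- `C` is a pentagon factor of the link of `v`, containing `x` -/
def PF (H : SimpleGraph α) (W : Finset α) (x v : α) (C : Finset α) : Prop :=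
  v ∈ W ∧ C ∈ comps H (lk H W v) ∧ x ∈ C ∧ NP H 2 C ∧ C.card = 5

variable {W : Finset α} {x v : α} {C : Finset α}

theorem PF.sub (h : PF H W x v C) : C ⊆ lk H W v := (mem_comps.1 h.2.1).1

theorem PF.prm (h : PF H W x v C) : Prm H C := (mem_comps.1 h.2.1).2.1

theorem PF.full (h : PF H W x v C) : Full H C (lk H W v \ C) := fun a ha b hb =>
  (mem_comps.1 h.2.1).2.2 a ha b (Finset.mem_sdiff.1 hb).1 (Finset.mem_sdiff.1 hb).2

theorem PF.nonadj (h : PF H W x v C) {a b : α} (ha : a ∈ C) (hb : b ∈ lk H W v)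
    (hab : ¬ H.Adj a b) : b ∈ C := by
  by_contra hbC
  exact hab (h.full a ha b (Finset.mem_sdiff.2 ⟨hb, hbC⟩))

theorem PF.not_mem (h : PF H W x v C) : v ∉ C := fun hv => not_mem_lk_self (h.sub hv)

theorem PF.card_lk (h : PF H W x v C) {a : α} (ha : a ∈ C) : (lk H C a).card = 2 :=
  NP2_card h.2.2.2.1 a ha

theorem PF.card_nn (h : PF H W x v C) {a : α} (ha : a ∈ C) : (nn H C a).card = 2 := by
  have h1 := card_eq_lk_nn (H := H) ha
  have h2 := h.card_lk ha
  have h3 := h.2.2.2.2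
  omega

theorem PF.nn_eq (h : PF H W x v C) {a : α} (ha : a ∈ C) : nn H (lk H W v) a = nn H C a := by
  have hCB : C ∪ (lk H W v \ C) = lk H W v := Finset.union_sdiff_of_subset h.sub
  conv_lhs => rw [← hCB]
  exact nn_left h.full ha

theorem PF.unique (h : PF H W x v C) {C' : Finset α} (h' : PF H W x v C') : C = C' :=
  comps_eq_of_inter h.2.1 h'.2.1 h.2.2.1 h'.2.2.1

/-- adjacency outside the pentagon: the pentagons agree -/
theorem PF.outer (h : PF H W x v C) {v' : α} {C' : Finset α} (h' : PF H W x v' C')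
    (hv' : v' ∈ lk H W v \ C) : C' = C := by
  have h1 : C ⊆ lk H W v' := by
    intro c hc
    exact mem_lk.2 ⟨lk_subset (h.sub hc), (h.full c hc v' hv').symm⟩
  have h2 : C ⊆ C' := prm_subset h.prm h1 h'.2.1 h.2.2.1 h'.2.2.1
  refine (Finset.eq_of_subset_of_card_le h2 ?_).symm
  rw [h.2.2.2.2, h'.2.2.2.2]

/-- adjacency inside the pentagon is symmetric -/
theorem PF.inner (h : PF H W x v C) (hx : x ∈ W) {v' : α} {C' : Finset α} (h' : PF H W x v' C')
    (hv' : v' ∈ C) : v ∈ C' := by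
  have h1 : v' ∈ lk H W v := h.sub hv'
  have hvv' : v ∈ lk H W v' := mem_lk.2 ⟨h.1, (mem_lk.1 h1).2.symm⟩
  by_contra hvC
  have h2 : C' ⊆ lk H W v := by
    intro c hc
    exact mem_lk.2 ⟨lk_subset (h'.sub hc), (h'.full c hc v (Finset.mem_sdiff.2 ⟨hvv', hvC⟩)).symm⟩
  have h3 : C' ⊆ C := prm_subset h'.prm h2 h.2.1 h'.2.2.1 h.2.2.1
  have h4 : C' = C := Finset.eq_of_subset_of_card_le h3 (by rw [h.2.2.2.2, h'.2.2.2.2])
  exact h'.not_mem (h4 ▸ hv')

theorem PF.inner_sub (h : PF H W x v C) (hx : x ∈ W) {v' : α} {C' : Finset α}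
    (h' : PF H W x v' C') (hv' : v' ∈ C) : lk H W v \ C ⊆ lk H W v' \ C' := by
  have hvC' := h.inner hx h' hv'
  have h1 : v' ∈ lk H W v := h.sub hv'
  -- another neighbour of `v'` in `C`
  have hxv' : x ∈ lk H C v' := mem_lk.2 ⟨h.2.2.1, (mem_lk.1 (h'.sub h'.2.2.1)).2⟩
  have h2 : ((lk H C v').erase x).Nonempty := by
    rw [← Finset.card_pos, Finset.card_erase_of_mem hxv', h.card_lk hv']
    norm_num
  obtain ⟨f, hf⟩ := h2
  obtain ⟨hfx, hf⟩ := Finset.mem_erase.1 hf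
  obtain ⟨hfC, hv'f⟩ := mem_lk.1 hf
  have hxf : ¬ H.Adj x f := (h.2.2.2.1.lk hv').2 x hxv' f hf
  have hfL : f ∈ lk H W v' := mem_lk.2 ⟨lk_subset (h.sub hfC), hv'f⟩
  have hfC' : f ∈ C' := h'.nonadj h'.2.2.1 hfL hxf
  intro m hm
  obtain ⟨hm1, hm2⟩ := Finset.mem_sdiff.1 hm
  have hmv' : m ∈ lk H W v' := mem_lk.2 ⟨lk_subset hm1, h.full v' hv' m hm⟩
  refine Finset.mem_sdiff.2 ⟨hmv', fun hmC' => ?_⟩
  have h3 : ({x, f, v} : Finset α) ⊆ lk H C' m := by
    intro w hw
    simp only [Finset.mem_insert, Finset.mem_singleton] at hw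
    rcases hw with rfl | rfl | rfl
    · exact mem_lk.2 ⟨h'.2.2.1, (h.full _ h.2.2.1 m hm).symm⟩
    · exact mem_lk.2 ⟨hfC', (h.full _ hfC m hm).symm⟩
    · exact mem_lk.2 ⟨hvC', (mem_lk.1 hm1).2.symm⟩
  have h4 : ({x, f, v} : Finset α).card = 3 := by
    rw [Finset.card_eq_three]
    exact ⟨x, f, v, hfx.symm, fun hh => h.not_mem (hh ▸ h.2.2.1), fun hh => h.not_mem (hh ▸ hfC),
      rfl⟩
  have h5 := Finset.card_le_card h3
  rw [h4, h'.card_lk hmC'] at h5
  omega

theorem PF.inner_eq (h : PF H W x v C) (hx : x ∈ W) {v' : α} {C' : Finset α}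
    (h' : PF H W x v' C') (hv' : v' ∈ C) : lk H W v' \ C' = lk H W v \ C :=
  Finset.Subset.antisymm (h'.inner_sub hx h (h.inner hx h' hv')) (h.inner_sub hx h' hv')

/-- no vertex for which `x` is in a pentagon lies in the complementary factor, if there is another
one inside the pentagon -/
theorem PF.no_mix (h : PF H W x v C) (hx : x ∈ W) {v' : α} {C' : Finset α}
    (h' : PF H W x v' C') (hv' : v' ∈ C) {w : α} {C'' : Finset α} (hw : PF H W x w C'') :
    w ∉ lk H W v \ C := by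
  intro hwM
  have h1 := h.outer hw hwM
  have h2 : w ∈ lk H W v' \ C' := by rw [h.inner_eq hx h' hv']; exact hwM
  have h3 := h'.outer hw h2
  exact h'.not_mem (h3 ▸ h1 ▸ hv')

open scoped Classical in
/-- the vertices `v` adjacent to `x` such that `x` lies in a pentagon factor of the link of `v` and
is not a suspension vertex of the links of its neighbours in this pentagon -/
noncomputable def pin (H : SimpleGraph α) (W : Finset α) (x : α) : Finset α :=
  (lk H W x).filter (fun v => ∃ C, PF H W x v C ∧ ∀ y ∈ lk H C x, y ∉ inn H W x)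

theorem mem_pin {W : Finset α} {x v : α} : v ∈ pin H W x ↔
    v ∈ lk H W x ∧ ∃ C, PF H W x v C ∧ ∀ y ∈ lk H C x, y ∉ inn H W x := by
  classical
  rw [pin, Finset.mem_filter]

open scoped Classical in
/-- the dual -/
noncomputable def pen (H : SimpleGraph α) (W : Finset α) (v : α) : Finset α :=
  (lk H W v).filter (fun x => v ∈ pin H W x)

theorem mem_pen {W : Finset α} {x v : α} : x ∈ pen H W v ↔ x ∈ lk H W v ∧ v ∈ pin H W x := by
  classical
  rw [pen, Finset.mem_filter]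

theorem pen_subset {W : Finset α} {v : α} : pen H W v ⊆ lk H W v := fun _ h => (mem_pen.1 h).1

theorem sum_pin_eq {W : Finset α} :
    ∑ x ∈ W, (pin H W x).card = ∑ v ∈ W, (pen H W v).card := by
  classical
  have h1 : ∀ x ∈ W, (pin H W x).card = ∑ v ∈ W, if v ∈ pin H W x then 1 else 0 := by
    intro x hx
    rw [← Finset.card_filter]
    congr 1
    ext v
    rw [Finset.mem_filter]
    exact ⟨fun h => ⟨lk_subset (mem_pin.1 h).1, h⟩, fun h => h.2⟩
  have h2 : ∀ v ∈ W, (pen H W v).card = ∑ x ∈ W, if v ∈ pin H W x then 1 else 0 := by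
    intro v hv
    rw [← Finset.card_filter]
    congr 1
    ext x
    rw [mem_pen, mem_lk, Finset.mem_filter]
    refine ⟨fun h => ⟨h.1.1, h.2⟩, fun h => ⟨⟨h.1, ?_⟩, h.2⟩⟩
    exact (mem_lk.1 (mem_pin.1 h.2).1).2.symm
  rw [Finset.sum_congr rfl h1, Finset.sum_congr rfl h2, Finset.sum_comm]

/-- in every pentagon factor of a link at least two vertices are kept -/
theorem Red_mk {D : ℕ} (hr : Red H W) (hW : NP H (D + 1) W) {v : α} (hv : v ∈ W) :
    Mk H (lk H W v) (pen H W v) := by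
  classical
  intro C hC hC2 hC5
  obtain ⟨hCL, hCp, hCadj⟩ := mem_comps.1 hC
  -- the opposite neighbours
  set A : Finset α := C.filter (fun a => ∃ z ∈ lk H C a, a ∈ inn H W z) with hA
  have hAall : ∀ a ∈ A, ∀ z ∈ lk H C a, a ∈ inn H W z := by
    intro a ha z hz
    obtain ⟨haC, y, hy, hay⟩ := Finset.mem_filter.1 ha
    by_cases hzy : z = y
    · rw [hzy]; exact hay
    obtain ⟨haW, hva⟩ := mem_lk.1 (hCL haC)
    obtain ⟨hzC, haz⟩ := mem_lk.1 hz
    obtain ⟨hyC, hay'⟩ := mem_lk.1 hy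
    have hzy' : ¬ H.Adj y z := (hC2.lk haC).2 y hy z hz
    have hzW : z ∈ W := lk_subset (hCL hzC)
    have hyW : y ∈ W := lk_subset (hCL hyC)
    obtain ⟨-, hcard⟩ := mem_inn.1 hay
    obtain ⟨t, ht⟩ := Finset.card_eq_one.1 hcard
    have hzn : z ∈ nn H (lk H W a) y := mem_nn.2 ⟨mem_lk.2 ⟨hzW, haz⟩, hzy, hzy'⟩
    have htz : nn H (lk H W a) y = {z} := by
      rw [ht, Finset.mem_singleton] at hzn
      rw [ht, hzn]
    have hyL : y ∈ lk H W a := mem_lk.2 ⟨hyW, hay'⟩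
    refine mem_inn.2 ⟨mem_lk.2 ⟨haW, haz.symm⟩, ?_⟩
    rw [Finset.card_eq_one]
    refine ⟨y, ?_⟩
    ext w
    rw [Finset.mem_singleton, mem_nn]
    constructor
    · rintro ⟨h1, h2, h3⟩
      by_contra hwy
      by_cases h4 : H.Adj y w
      · exact h3 (adj_of_nn_singleton (hW.lk haW) hyL htz (mem_lk.2 ⟨h1, h4⟩))
      · have : w ∈ nn H (lk H W a) y := mem_nn.2 ⟨h1, hwy, h4⟩
        rw [htz, Finset.mem_singleton] at this
        exact h2 this
    · rintro rfl
      exact ⟨hyL, fun h => hzy h.symm, fun h => hzy' h.symm⟩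
  have hind : ∀ a ∈ A, ∀ b ∈ A, ¬ H.Adj a b := by
    intro a ha b hb hab
    have haC := (Finset.mem_filter.1 ha).1
    have hbC := (Finset.mem_filter.1 hb).1
    have h1 : a ∈ inn H W b := hAall a ha b (mem_lk.2 ⟨hbC, hab⟩)
    have h2 : b ∈ inn H W a := hAall b hb a (mem_lk.2 ⟨haC, hab.symm⟩)
    obtain ⟨h3, h4⟩ := mem_inn.1 h1
    obtain ⟨h5, h6⟩ := mem_inn.1 h2
    exact hr.not_both hW (lk_subset h3) (mem_lk.2 ⟨lk_subset h5, hab⟩) h4 h6
  have hAC : A ⊆ C := Finset.filter_subset _ _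
  have hA2 := pentagon_indep hC2 hC5 hAC hind
  set B : Finset α := C.filter (fun b => ∃ a ∈ A, H.Adj a b) with hB
  have hBC : B ⊆ C := Finset.filter_subset _ _
  have hB3 : B.card ≤ 3 := by
    by_cases h1 : A.card = 2
    · have h2 : B ⊆ C \ A := by
        intro b hb
        obtain ⟨hb1, a, ha, hab⟩ := Finset.mem_filter.1 hb
        exact Finset.mem_sdiff.2 ⟨hb1, fun hbA => hind a ha b hbA hab⟩
      have h3 := Finset.card_le_card h2
      rw [Finset.card_sdiff_of_subset hAC] at h3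
      omega
    · rcases A.eq_empty_or_nonempty with h0 | ⟨a, ha⟩
      · have : B = ∅ := by
          apply Finset.eq_empty_of_forall_notMem
          intro b hb
          obtain ⟨-, a, ha, -⟩ := Finset.mem_filter.1 hb
          rw [h0] at ha
          exact Finset.notMem_empty a ha
        rw [this, Finset.card_empty]
        omega
      · have hA1 : A.card = 1 := by
          have := Finset.card_pos.2 ⟨a, ha⟩
          omega
        obtain ⟨a', ha'⟩ := Finset.card_eq_one.1 hA1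
        have h2 : B ⊆ lk H C a' := by
          intro b hb
          obtain ⟨hb1, a'', ha'', hab⟩ := Finset.mem_filter.1 hb
          rw [ha', Finset.mem_singleton] at ha''
          exact mem_lk.2 ⟨hb1, ha'' ▸ hab⟩
        have h3 := Finset.card_le_card h2
        have ha'C : a' ∈ C := hAC (by rw [ha']; exact Finset.mem_singleton_self a')
        rw [NP2_card hC2 a' ha'C] at h3
        omega
  have hsub : C \ B ⊆ pen H W v ∩ C := by
    intro z hz
    obtain ⟨hzC, hzB⟩ := Finset.mem_sdiff.1 hz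
    obtain ⟨hzW, hvz⟩ := mem_lk.1 (hCL hzC)
    refine Finset.mem_inter.2 ⟨mem_pen.2 ⟨hCL hzC, mem_pin.2 ⟨mem_lk.2 ⟨hv, hvz.symm⟩, C,
      ⟨hv, hC, hzC, hC2, hC5⟩, ?_⟩⟩, hzC⟩
    intro y hy hyi
    obtain ⟨hyC, hzy⟩ := mem_lk.1 hy
    refine hzB (Finset.mem_filter.2 ⟨hzC, y, Finset.mem_filter.2 ⟨hyC, z,
      mem_lk.2 ⟨hzC, hzy.symm⟩, hyi⟩, hzy.symm⟩)
  have h1 := Finset.card_le_card hsub
  rw [Finset.card_sdiff_of_subset hBC] at h1
  omega

/-- no adjacency between the two kinds of vertices -/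
theorem inn_pin_not_adj {u v : α} (hu : u ∈ inn H W x) (hv : v ∈ pin H W x) : ¬ H.Adj u v := by
  intro huv
  obtain ⟨hvL, C, hC, hCi⟩ := mem_pin.1 hv
  obtain ⟨huL, hun⟩ := mem_inn.1 hu
  obtain ⟨huW, hxu⟩ := mem_lk.1 huL
  have huv' : u ∈ lk H W v := mem_lk.2 ⟨huW, huv.symm⟩
  by_cases huC : u ∈ C
  · exact hCi u (mem_lk.2 ⟨huC, hxu⟩) hu
  · have hsub : nn H C x ⊆ nn H (lk H W u) x := by
      intro w hw
      obtain ⟨h1, h2, h3⟩ := mem_nn.1 hw
      exact mem_nn.2 ⟨mem_lk.2 ⟨lk_subset (hC.sub h1),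
        (hC.full w h1 u (Finset.mem_sdiff.2 ⟨huv', huC⟩)).symm⟩, h2, h3⟩
    have h1 := Finset.card_le_card hsub
    rw [hC.card_nn hC.2.2.1] at h1
    omega

theorem inn_pin_disjoint : Disjoint (inn H W x) (pin H W x) := by
  rw [Finset.disjoint_left]
  intro u hu hv
  obtain ⟨hvL, C, hC, hCi⟩ := mem_pin.1 hv
  obtain ⟨huL, hun⟩ := mem_inn.1 hu
  rw [hC.nn_eq hC.2.2.1, hC.card_nn hC.2.2.1] at hun
  omega

end Pool.Agent.J6H30.Gal2
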