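import Pool.Agent.J6H30.Gal2.Pent

set_option autoImplicit false
set_option linter.unusedSectionVars false
set_option linter.unusedVariables false

/-! # The inequality at a vertex -/

namespace Pool.Agent.J6H30.Gal2

open Pool.Agent.W497.FS Pool.Agent.TH417.Gal

variable {α : Type} [DecidableEq α] {H : SimpleGraph α} {W : Finset α} {x : α}

/-- the case with a suspension vertex -/
theorem vertex_inn {D : ℕ} (hr : Red H W) (hW : NP H (D + 1) W) (hx : x ∈ W)
    (hne : (inn H W x).Nonempty) :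
    10 * (inn H W x).card + 5 * (pin H W x).card + 80 * D ≤ 30 * (lk H W x).card +
      10 * (sus H (lk H W x)).card + 5 * (pen H W x).card + 40 := by
  classical
  obtain ⟨v, hv⟩ := hne
  have hL := hW.lk hx
  obtain ⟨hvL, hvn⟩ := mem_inn.1 hv
  obtain ⟨hvW, hxv⟩ := mem_lk.1 hvL
  obtain ⟨p, hpW, hpx, hxp, hpv, hpu, -⟩ := inn_anti hW hx hv
  obtain ⟨y, hyL, hpy⟩ := hr.exists_nonadj hW hx hpW hpx.symm
  have hanti : ∀ u ∈ inn H W x, H.Adj p u → ∀ w ∈ lk H W x, H.Adj w u → H.Adj p w := by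
    intro u hu hpu' w hw hwu
    obtain ⟨q, hqW, hqx, hxq, hqu', hqw, hqq⟩ := inn_anti hW hx hu
    rw [hqq p hpW hpx hxp hpu']
    exact hqw w hw hwu
  set K := (inn H W x).filter (fun u => H.Adj p u) with hK
  have h1 := cut (U := inn H W x ∪ pin H W x) (K := K) hL (Red_mk hr hW hx)
    (Finset.union_subset (fun u hu => (mem_inn.1 hu).1) (fun u hu => (mem_pin.1 hu).1))
    ((Finset.filter_subset _ _).trans Finset.subset_union_left)
    ⟨v, Finset.mem_filter.2 ⟨hv, hpv⟩⟩ ?_ hyL ?_ ?_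
  · rw [Finset.inter_eq_left.2 pen_subset, Finset.card_union_of_disjoint inn_pin_disjoint] at h1
    omega
  · intro u hu w hw hwu
    obtain ⟨hu1, hu2⟩ := Finset.mem_filter.1 hu
    rcases Finset.mem_union.1 hw with hw | hw
    · exact Finset.mem_filter.2 ⟨hw, hanti u hu1 hu2 w (mem_inn.1 hw).1 hwu⟩
    · exact absurd hwu.symm (inn_pin_not_adj hu1 hw)
  · intro hyK
    exact hpy (Finset.mem_filter.1 hyK).2
  · intro u hu hyu
    obtain ⟨hu1, hu2⟩ := Finset.mem_filter.1 hu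
    exact hpy (hanti u hu1 hu2 y hyL hyu)

/-- the case of two vertices of the pentagon -/
theorem vertex_two {D : ℕ} (hr : Red H W) (hW : NP H (D + 1) W) (hx : x ∈ W)
    (h0 : inn H W x = ∅) {v v' : α} {C C' : Finset α} (hv : PF H W x v C) (hv' : PF H W x v' C')
    (hvv : v' ∈ C) (hxv : H.Adj x v) :
    10 * (inn H W x).card + 5 * (pin H W x).card + 80 * D ≤ 30 * (lk H W x).card +
      10 * (sus H (lk H W x)).card + 5 * (pen H W x).card + 40 := by
  classical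
  have hL := hW.lk hx
  set M := lk H W v \ C with hM
  have hnoM : ∀ w ∈ pin H W x, w ∉ M := by
    intro w hw
    obtain ⟨-, C'', hC'', -⟩ := mem_pin.1 hw
    exact hv.no_mix hx hv' hvv hC''
  have hML : M ⊆ lk H W x := by
    intro m hm
    exact mem_lk.2 ⟨lk_subset (Finset.mem_sdiff.1 hm).1, hv.full x hv.2.2.1 m hm⟩
  set K := (pin H W x).filter (fun u => ∃ C₁, PF H W x u C₁ ∧ lk H W u \ C₁ = M) with hK
  have hPF : ∀ u ∈ pin H W x, ∃ C₁, PF H W x u C₁ := by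
    intro u hu
    obtain ⟨-, C'', hC'', -⟩ := mem_pin.1 hu
    exact ⟨C'', hC''⟩
  have hpinv : ∀ u : α, ∀ C₁ : Finset α, PF H W x u C₁ → H.Adj x u → u ∈ pin H W x := by
    intro u C₁ h1 h2
    refine mem_pin.2 ⟨mem_lk.2 ⟨h1.1, h2⟩, C₁, h1, fun y _ => ?_⟩
    rw [h0]
    exact Finset.notMem_empty y
  have hvK : v ∈ K := Finset.mem_filter.2 ⟨hpinv v C hv hxv, C, hv, rfl⟩
  by_cases hdom : ∃ z ∈ lk H W x, z ∉ K ∧ ∀ u ∈ K, ¬ H.Adj z u
  · obtain ⟨z, hz, hzK, hzn⟩ := hdom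
    have h1 := cut (U := pin H W x) (K := K) hL (Red_mk hr hW hx)
      (fun u hu => (mem_pin.1 hu).1) (Finset.filter_subset _ _) ⟨v, hvK⟩ ?_ hz hzK hzn
    · rw [Finset.inter_eq_left.2 pen_subset] at h1
      rw [h0, Finset.card_empty]
      omega
    · intro u hu w hw hwu
      obtain ⟨hu1, C₁, hC₁, hC₁M⟩ := Finset.mem_filter.1 hu
      obtain ⟨C₂, hC₂⟩ := hPF w hw
      have hwL : w ∈ lk H W u := mem_lk.2 ⟨lk_subset (mem_pin.1 hw).1, hwu.symm⟩
      by_cases hwC : w ∈ C₁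
      · exact Finset.mem_filter.2 ⟨hw, C₂, hC₂, by rw [hC₁.inner_eq hx hC₂ hwC, hC₁M]⟩
      · exact absurd (hC₁M ▸ Finset.mem_sdiff.2 ⟨hwL, hwC⟩) (hnoM w hw)
  · push Not at hdom
    have hYM : (lk H W x \ M) ∪ M = lk H W x := by
      rw [Finset.union_comm]; exact Finset.union_sdiff_of_subset hML
    have hfull : Full H (lk H W x \ M) M := by
      intro z hz m hm
      obtain ⟨hz1, hz2⟩ := Finset.mem_sdiff.1 hz
      by_cases hzK : z ∈ K
      · obtain ⟨-, C₁, hC₁, hC₁M⟩ := Finset.mem_filter.1 hzK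
        rw [← hC₁M] at hm
        exact (mem_lk.1 (Finset.mem_sdiff.1 hm).1).2
      · obtain ⟨u, hu, hzu⟩ := hdom z hz1 hzK
        obtain ⟨-, C₁, hC₁, hC₁M⟩ := Finset.mem_filter.1 hu
        have hzL : z ∈ lk H W u := mem_lk.2 ⟨lk_subset hz1, hzu.symm⟩
        by_cases hzC : z ∈ C₁
        · rw [← hC₁M] at hm
          exact hC₁.full z hzC m hm
        · exact absurd (hC₁M ▸ Finset.mem_sdiff.2 ⟨hzL, hzC⟩) hz2
    have hLv : NP H D (C ∪ M) := by
      have : C ∪ M = lk H W v := Finset.union_sdiff_of_subset hv.sub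
      rw [this]
      exact hW.lk hv.1
    obtain ⟨d₁, d₂, hd, hd₁, hd₂⟩ := hLv.split hv.full
    have hd12 := hd₁.rank_unique hv.2.2.2.1
    have hLx : NP H D ((lk H W x \ M) ∪ M) := by rw [hYM]; exact hL
    obtain ⟨e₁, e₂, he, he₁, he₂⟩ := hLx.split hfull
    have he12 := he₂.rank_unique hd₂
    obtain rfl : e₁ = 2 := by omega
    have hmk : Mk H ((lk H W x \ M) ∪ M) (pen H W x) := by rw [hYM]; exact Red_mk hr hW hx
    have h1 := exc (U := pin H W x) hfull hLx he₁ hmk (fun u hu =>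
      Finset.mem_sdiff.2 ⟨(mem_pin.1 hu).1, hnoM u hu⟩)
    rw [hYM, Finset.inter_eq_left.2 pen_subset] at h1
    rw [h0, Finset.card_empty]
    omega

/-- **the inequality at a vertex** -/
theorem vertex {D : ℕ} (hr : Red H W) (hp : Prm H W) (hW : NP H (D + 1) W) (hx : x ∈ W) :
    10 * (inn H W x).card + 5 * (pin H W x).card + 80 * D ≤ 30 * (lk H W x).card +
      10 * (sus H (lk H W x)).card + 5 * (pen H W x).card + 40 := by
  classical
  rcases (inn H W x).eq_empty_or_nonempty with h0 | hne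
  swap
  · exact vertex_inn hr hW hx hne
  have hL := hW.lk hx
  rcases (pin H W x).eq_empty_or_nonempty with h1 | ⟨v, hv⟩
  · have h2 := link_bound hL (Red_mk hr hW hx)
    rw [Finset.inter_eq_left.2 pen_subset] at h2
    rw [h0, h1, Finset.card_empty]
    omega
  have hPF : ∀ u ∈ pin H W x, ∃ C₁, PF H W x u C₁ := by
    intro u hu
    obtain ⟨-, C'', hC'', -⟩ := mem_pin.1 hu
    exact ⟨C'', hC''⟩
  have hpinv : ∀ u : α, ∀ C₁ : Finset α, PF H W x u C₁ → H.Adj x u → u ∈ pin H W x := by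
    intro u C₁ h1 h2
    refine mem_pin.2 ⟨mem_lk.2 ⟨h1.1, h2⟩, C₁, h1, fun y _ => ?_⟩
    rw [h0]
    exact Finset.notMem_empty y
  by_cases htwo : ∃ u ∈ pin H W x, ∃ C₁, PF H W x u C₁ ∧ ∃ w ∈ pin H W x, w ∈ C₁
  · obtain ⟨u, hu, C₁, hC₁, w, hw, hwC⟩ := htwo
    obtain ⟨C₂, hC₂⟩ := hPF w hw
    exact vertex_two hr hW hx h0 hC₁ hC₂ hwC (mem_lk.1 (mem_pin.1 hu).1).2
  push Not at htwo
  obtain ⟨C, hC⟩ := hPF v hv
  set K := (pin H W x).filter (fun u => PF H W x u C) with hK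
  have hvK : v ∈ K := Finset.mem_filter.2 ⟨hv, hC⟩
  by_cases hdom : ∃ z ∈ lk H W x, z ∉ K ∧ ∀ u ∈ K, ¬ H.Adj z u
  · obtain ⟨z, hz, hzK, hzn⟩ := hdom
    have h1 := cut (U := pin H W x) (K := K) hL (Red_mk hr hW hx)
      (fun u hu => (mem_pin.1 hu).1) (Finset.filter_subset _ _) ⟨v, hvK⟩ ?_ hz hzK hzn
    · rw [Finset.inter_eq_left.2 pen_subset] at h1
      rw [h0, Finset.card_empty]
      omega
    · intro u hu w hw hwu
      obtain ⟨hu1, hC₁⟩ := Finset.mem_filter.1 hu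
      obtain ⟨C₂, hC₂⟩ := hPF w hw
      have hwL : w ∈ lk H W u := mem_lk.2 ⟨lk_subset (mem_pin.1 hw).1, hwu.symm⟩
      have hwC : w ∉ C := htwo u hu1 C hC₁ w hw
      have h2 := hC₁.outer hC₂ (Finset.mem_sdiff.2 ⟨hwL, hwC⟩)
      exact Finset.mem_filter.2 ⟨hw, h2 ▸ hC₂⟩
  · -- the complex would be a join
    exfalso
    push Not at hdom
    set E := lk H C x with hE
    have hEC : E ⊆ C := lk_subset
    have hEL : E ⊆ lk H W x := by
      intro y hy
      obtain ⟨h1, h2⟩ := mem_lk.1 hy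
      exact mem_lk.2 ⟨lk_subset (hC.sub h1), h2⟩
    set R := lk H W x \ E with hR
    have hCR : Full H C R := by
      intro c hc z hz
      obtain ⟨hz1, hz2⟩ := Finset.mem_sdiff.1 hz
      by_cases hzK : z ∈ K
      · obtain ⟨-, hC₁⟩ := Finset.mem_filter.1 hzK
        exact (mem_lk.1 (hC₁.sub hc)).2.symm
      · obtain ⟨u, hu, hzu⟩ := hdom z hz1 hzK
        obtain ⟨-, hC₁⟩ := Finset.mem_filter.1 hu
        have hzL : z ∈ lk H W u := mem_lk.2 ⟨lk_subset hz1, hzu.symm⟩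
        have hzC : z ∉ C := fun h => hz2 (mem_lk.2 ⟨h, (mem_lk.1 hz1).2⟩)
        exact hC₁.full c hc z (Finset.mem_sdiff.2 ⟨hzL, hzC⟩)
    have hER : E ∪ R = lk H W x := Finset.union_sdiff_of_subset hEL
    have hLx : NP H D (E ∪ R) := by rw [hER]; exact hL
    obtain ⟨d₁, d₂, hd, hd₁, hd₂⟩ := hLx.split (hCR.mono hEC (Finset.Subset.refl _))
    have hd1 : d₁ = 1 := hd₁.rank_unique (hC.2.2.2.1.lk hC.2.2.1)
    have hq := hC.2.2.2.1.q.join hd₂.q hCR
    have hde : 2 + d₂ = D + 1 := by omega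
    rw [hde] at hq
    have hCW : C ⊆ W := hC.sub.trans lk_subset
    have hRW : R ⊆ W := Finset.sdiff_subset.trans lk_subset
    have hEq := closed_eq hW (Finset.union_subset hCW hRW) hq
    have hvC : v ∉ C := hC.not_mem
    obtain ⟨a, ha, b, hb, hbC, hab⟩ := hp.2 C hCW ⟨x, hC.2.2.1⟩ (fun h => hvC (h ▸ hC.1))
    rw [← hEq, Finset.mem_union] at hb
    rcases hb with hb | hb
    · exact hbC hb
    · exact hab (hCR a ha b hb)

end Pool.Agent.J6H30.Gal2
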